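import Pool.Graph.R_seed8.Results.MP_40718a_co.CoverClosure
import Pool.Graph.R_pool_sql_team_seeded_2aa45f1a.Results.MP_20b97f_co.TwiceEulerianWeights
import Pool.Agent.H14.QF.Tame

/-!
# Seymour's even circuit covers: a closure of all known classes with quadruple covers (MP_20b97f_co)

Graphs are finite, loops and parallel edges allowed: `MGraph V E`, `G.deg`, `G.IsCircuit` are defined
in `Pool.Agent.H126R2.CDC.Defs`.

The local edges of a graph are the least set of edges which contains all edges of the circuits with
at most four edges, and of the circuits which have at most four edges after local edges have been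
contracted.  Let `G` be a graph without cut edges, in which no nine pairwise disjoint edges are not
local, or no circuit has more than thirteen edges which are not local, or there are no thirteen
disjoint vertex sets with different boundaries of exactly three edges none of which is local (for
instance at most twelve cuts with three edges), or with treewidth at most four, carving width at
most five or cutwidth at most six, or let `G` be a graph with a nowhere-zero 4-flow; or let `G` be
obtained from such graphs by identification of vertices, edge-disjoint unions and sums along cuts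
with at most three edges.  If the edges of weight
one of `q : E → {1, 2}` form an even subgraph then `(G, 2 q)` has a circuit cover.  More generally,
for all even subgraphs `F₁, …, F_a` and all `b` the weight `p(e) = 4 a + 2 b - 2 #{j | e ∈ F_j}` has
a circuit cover.

Proof.  These graphs have six even subgraphs which contain every edge exactly four times (for the
classes with local edges this is new, `H14.QF`: the library theorems `W5h8/M9`, `N393/C13`,
`TH362/FO` are applied to minimal contractions, in which all local edges are loops); symmetric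
differences with the even subgraph of the edges of weight one and the circuit double cover theorem
give the covers (`TwiceEulerianWeights` of the library).
-/

set_option autoImplicit false

namespace Pool.Agent.Results.MP_20b97f_co.ClosureOfClasses

open Finset Pool.Agent
open Pool.Agent.H126R2.CDC
open Pool.Agent.H126R2.CDC.MGraph

/-- `(G, p)` has a circuit cover: a multiset of circuits such that every edge `e` lies in exactly
`p e` of its members. -/
def HasCircuitCover {V E : Type} [Fintype V] [DecidableEq V] [Fintype E] [DecidableEq E]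
    (G : MGraph V E) (p : E → ℕ) : Prop :=
  ∃ 𝓕 : Multiset (Finset E), (∀ C ∈ 𝓕, G.IsCircuit C) ∧ ∀ e, 𝓕.countP (fun C => e ∈ C) = p e

/-- Every vertex has even degree in `(V, C)`; a loop counts twice. -/
def IsEven {V E : Type} (s t : E → V) (C : Set E) : Prop :=
  ∀ v, Even ({e | e ∈ C ∧ s e = v}.ncard + {e | e ∈ C ∧ t e = v}.ncard)

/-- The edges with exactly one end in `Z`. -/
def leaving {V E : Type} (s t : E → V) (Z : Set V) : Set E :=
  {e | ¬ (s e ∈ Z ↔ t e ∈ Z)}

/-- The edge `e` is local: it is in every edge set `S` such that each even edge set with at most four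
edges outside of `S` is contained in `S`. -/
def IsLocal {V E : Type} (s t : E → V) (e : E) : Prop :=
  ∀ S : Set E, (∀ C, IsEven s t C → (C \ S).ncard ≤ 4 → C ⊆ S) → e ∈ S

/-- There are no nine edges, pairwise without common end, none of which is local. -/
def NoNineDisjointEdges {V E : Type} (s t : E → V) : Prop :=
  ¬ ∃ f : Fin 9 → E, (∀ i, ¬ IsLocal s t (f i)) ∧
    ∀ i j, i ≠ j → Disjoint ({s (f i), t (f i)} : Set V) {s (f j), t (f j)}

/-- No circuit has more than thirteen edges which are not local: there are no `n` different vertices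
`v 0, ..., v (n - 1)` such that the edge `e i` joins `v i` and `v (i + 1)` for each `i`, where the
indices are read modulo `n`, and more than thirteen of the edges `e 0, ..., e (n - 1)` are not
local. -/
def NoLongCircuit {V E : Type} (s t : E → V) : Prop :=
  ¬ ∃ (n : ℕ) (v : ℕ → V) (e : ℕ → E), (∀ i < n, ∀ j < n, v i = v j → i = j) ∧
    (∀ i < n, (s (e i) = v i ∧ t (e i) = v ((i + 1) % n)) ∨
      (s (e i) = v ((i + 1) % n) ∧ t (e i) = v i)) ∧
    13 < {i | i < n ∧ ¬ IsLocal s t (e i)}.ncard

/-- There are no thirteen pairwise disjoint vertex sets with pairwise different boundaries each of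
which has exactly three edges, none of them local. -/
def FewThreeCuts {V E : Type} (s t : E → V) : Prop :=
  ¬ ∃ X : Fin 13 → Set V, (∀ i j, i ≠ j → Disjoint (X i) (X j)) ∧
    (∀ i j, i ≠ j → leaving s t (X i) ≠ leaving s t (X j)) ∧
    ∀ i, (leaving s t (X i)).ncard = 3 ∧ ∀ e ∈ leaving s t (X i), ¬ IsLocal s t e

/-- Tree decomposition of the graph, with bags `bag i` for the nodes `i` of the tree `T`. -/
def IsTreeDecomposition {V E ι : Type} (s t : E → V) (T : SimpleGraph ι)
    (bag : ι → Finset V) : Prop :=
  T.IsTree ∧ (∀ v, ∃ i, v ∈ bag i) ∧ (∀ e, ∃ i, s e ∈ bag i ∧ t e ∈ bag i) ∧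
    ∀ (i j : ι) (p : T.Walk i j), p.IsPath → ∀ k ∈ p.support, ∀ v, v ∈ bag i → v ∈ bag j →
      v ∈ bag k

/-- The treewidth is at most `k`. -/
def TreewidthLE {V E : Type} (s t : E → V) (k : ℕ) : Prop :=
  ∃ (ι : Type) (_ : Fintype ι) (T : SimpleGraph ι) (bag : ι → Finset V),
    IsTreeDecomposition s t T bag ∧ ∀ i, (bag i).card ≤ k + 1

/-- The carving width is at most `k`: `T` is a binary tree whose leaves are labelled bijectively by
the vertices, and for every subtree at most `k` edges leave the set of its leaves. -/
def CarvingWidthLE {V E : Type} [Fintype E] (s t : E → V) (k : ℕ) : Prop :=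
  ∃ T : Pool.Agent.W420.BF.Tr V, T.set = Set.univ ∧ T.Nodup ∧ T.Width s t k

/-- The cutwidth is at most `k`: the vertices are placed on a line such that at most `k` edges pass
over each gap. -/
def CutwidthLE {V E : Type} (s t : E → V) (k : ℕ) : Prop :=
  ∃ f : V → ℕ, Function.Injective f ∧ ∀ n, (leaving s t {v | f v < n}).ncard ≤ k

open Classical in
/-- Contraction of `Z` to its element `z`: every vertex of `Z` is replaced by `z`. -/
noncomputable def contract {V : Type} (Z : Set V) (z v : V) : V := if v ∈ Z then z else v

open Classical in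
/-- The second ends of the edges after the edges in `D` have been replaced by loops. -/
noncomputable def drop {V E : Type} (s t : E → V) (D : Set E) (e : E) : V :=
  if e ∈ D then s e else t e

/-- The closure of the base graphs under identification of vertices, edge-disjoint unions, and sums
along cuts with at most three edges.  The edge set `E` is fixed (a deleted edge is a loop), the
vertex set may change. -/
inductive Closure {E : Type} [Fintype E] : ∀ {V : Type}, (E → V) → (E → V) → Prop
  | base {V : Type} [Finite V] (s t : E → V) : (∀ Z, (leaving s t Z).ncard ≠ 1) →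
      (NoNineDisjointEdges s t ∨ NoLongCircuit s t ∨ FewThreeCuts s t ∨
        TreewidthLE s t 4 ∨ CarvingWidthLE s t 5 ∨ CutwidthLE s t 6) → Closure s t
  | flow {V : Type} (s t : E → V) (C₁ C₂ : Set E) : IsEven s t C₁ → IsEven s t C₂ →
      C₁ ∪ C₂ = Set.univ → Closure s t
  | identify {V W : Type} (s t : E → V) (c : V → W) : Closure s t → Closure (c ∘ s) (c ∘ t)
  | union {V : Type} (s t : E → V) (D : Set E) : Closure s (drop s t D) →
      Closure s (drop s t Dᶜ) → Closure s t
  | sum {V : Type} (s t : E → V) (Z : Set V) (z z' : V) : z ∈ Z → z' ∉ Z →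
      (leaving s t Z).ncard ≤ 3 → Closure (contract Z z ∘ s) (contract Z z ∘ t) →
      Closure (contract Zᶜ z' ∘ s) (contract Zᶜ z' ∘ t) → Closure s t

open Pool.Agent.X24.QC Pool.Agent.Results.MP_40718a_co

theorem qc_of_cov {V E : Type} [Fintype V] [DecidableEq V] [Fintype E] [DecidableEq E]
    {s t : E → V} (h : R140.PK.Cov s t) : QC s t := by
  obtain ⟨φ, h1, h2⟩ := h
  refine ⟨fun i e => φ e i, fun i x => ?_, fun e => h1 e⟩
  have h3 := congrFun (h2 x) i
  unfold TH362.TF.Four.B at h3
  rw [Finset.sum_apply] at h3
  unfold bd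
  refine Eq.trans ?_ h3
  refine Finset.sum_congr (by congr) fun e _ => ?_
  by_cases h4 : s e = x <;> by_cases h5 : t e = x <;> simp [h4, h5]

theorem deg_eq {V E : Type} [Fintype V] [DecidableEq V] [Fintype E] [DecidableEq E]
    (s t : E → V) (C : Finset E) (v : V) : TH362.TF.deg s t C v =
      {e | e ∈ (C : Set E) ∧ s e = v}.ncard + {e | e ∈ (C : Set E) ∧ t e = v}.ncard := by
  have h : ∀ f : E → V, ∑ e ∈ C, (if f e = v then 1 else 0) =
      {e | e ∈ (C : Set E) ∧ f e = v}.ncard := by
    intro f
    rw [← Finset.card_filter, ← Set.ncard_coe_finset]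
    congr 1
    ext e
    simp
  unfold TH362.TF.deg
  rw [Finset.sum_add_distrib, h s, h t]

theorem cut_eq {V E : Type} [Fintype V] [DecidableEq V] [Fintype E] [DecidableEq E]
    (s t : E → V) (x : V → Bool) :
    ((TH362.TF.cut s t univ x : Finset E) : Set E) = leaving s t {v | x v = true} := by
  ext e
  simp only [leaving, Set.mem_ofPred_eq, TH362.TF.cut, coe_filter, mem_univ, true_and]
  cases x (s e) <;> cases x (t e) <;> simp

theorem n1_of {V E : Type} [Fintype V] [DecidableEq V] [Fintype E] [DecidableEq E]
    {s t : E → V} (h : ∀ Z, (leaving s t Z).ncard ≠ 1) : TH362.TF.N1 s t univ := by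
  intro x hx
  apply h {v | x v = true}
  rw [← hx, ← cut_eq, Set.ncard_coe_finset]

theorem qc_tame {V E : Type} [Fintype E] [Finite V] {s t : E → V}
    (h : ∀ Z, (leaving s t Z).ncard ≠ 1)
    (hc : NoNineDisjointEdges s t ∨ NoLongCircuit s t ∨ FewThreeCuts s t) : QC s t := by
  classical
  have := Fintype.ofFinite V
  refine qc_of_cov (H14.QF.Tm.cov_tame s t (n1_of h) ?_)
  rcases hc with hc | hc | hc
  · right; left
    rintro ⟨f, h1, h2⟩
    exact hc ⟨f, fun i h3 => h1 i fun S hS => H14.QF.Mn.local_of h3 hS, h2⟩
  · left
    rintro ⟨n, v, e, hv, he, hcard⟩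
    refine hc ⟨n, v, e, hv, he, lt_of_lt_of_le hcard ?_⟩
    rw [← Set.ncard_coe_finset]
    refine Set.ncard_le_ncard ?_ ((Set.finite_lt_nat n).subset fun i hi => hi.1)
    intro i hi
    rw [Finset.mem_coe, Finset.mem_filter, Finset.mem_range] at hi
    exact ⟨hi.1, fun h1 => hi.2 fun S hS => H14.QF.Mn.local_of h1 hS⟩
  · right; right
    rintro ⟨X, h1, h2, h3⟩
    refine hc ⟨fun i => {v | X i v = true}, fun i j hij => ?_, fun i j hij => ?_,
      fun i => ⟨?_, ?_⟩⟩
    · rw [Set.disjoint_left]
      intro v hv hw
      exact h1 i j hij v ⟨hv, hw⟩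
    · rw [← cut_eq, ← cut_eq]
      exact fun h4 => h2 i j hij (Finset.coe_injective h4)
    · rw [← cut_eq, Set.ncard_coe_finset]
      exact (h3 i).1
    · intro e he h4
      rw [← cut_eq, Finset.mem_coe] at he
      exact (h3 i).2 e he fun S hS => H14.QF.Mn.local_of h4 hS

theorem qc_closure {V E : Type} [Fintype E] {s t : E → V} (h : Closure s t) : QC s t := by
  induction h with
  | base s t h hb =>
    rcases hb with hb | hb | hb | hb
    · exact qc_tame h (Or.inl hb)
    · exact qc_tame h (Or.inr (Or.inl hb))
    · exact qc_tame h (Or.inr (Or.inr hb))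
    · exact CoverClosure.qc_of_narrow h hb
  | flow s t C₁ C₂ h1 h2 h => exact CoverClosure.qc_of_flow h1 h2 h
  | identify s t c _ ih => exact QC.map c ih
  | union s t D _ _ ih1 ih2 => exact QC.union D ih1 ih2
  | sum s t Z z z' hz hz' h3 _ _ ih1 ih2 => exact QC.sum Z hz hz' h3 ih1 ih2

section

variable {V E : Type} [Fintype V] [DecidableEq V] [Fintype E] [DecidableEq E]

theorem even_deg (G : MGraph V E) {s t : E → V} (hst : ∀ e, G.ends e = s(s e, t e))
    {C : Set E} [DecidablePred (· ∈ C)] (h : IsEven s t C) (v : V) : Even (G.deg C.toFinset v) := by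
  rw [deg_eq_sum]
  have h4 : ∑ e ∈ C.toFinset, G.ep e v = ∑ e ∈ C.toFinset, ((if s e = v then 1 else 0) +
      (if t e = v then 1 else 0)) := sum_congr rfl fun e _ => G.ep_eq (hst e) v
  rw [h4]
  have h5 := h v
  have h6 := deg_eq s t C.toFinset v
  rw [Set.coe_toFinset] at h6
  rw [← h6] at h5
  exact h5

theorem six_of (G : MGraph V E) {s t : E → V} (hst : ∀ e, G.ends e = s(s e, t e))
    (h : Closure s t) : TwiceEulerianWeights.SixCover G (fun _ => 4) := by
  classical
  obtain ⟨C, h1, h2⟩ := CoverClosure.cover_of_qc (qc_closure h)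
  refine ⟨fun i => (C i).toFinset, fun i v => even_deg G hst (h1 i) v, fun e => ?_⟩
  have h3 := h2 e
  rw [← h3, ← Set.ncard_coe_finset]
  congr 1
  ext i
  simp

theorem bridgeless_of (G : MGraph V E) (h : TwiceEulerianWeights.SixCover G (fun _ => 4)) :
    G.Bridgeless := by
  obtain ⟨C, h1, h2⟩ := h
  intro e
  obtain ⟨i, hi⟩ : ∃ i, e ∈ C i := by
    by_contra hc
    push Not at hc
    have h3 := h2 e
    rw [filter_false_of_mem fun i _ => hc i] at h3
    simp at h3
  obtain ⟨𝓕, h3, h4⟩ := G.decompose _ _ rfl (h1 i)
  have h5 := h4 e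
  rw [if_pos hi] at h5
  obtain ⟨D, hD, heD⟩ := Multiset.countP_pos.1 (by rw [h5]; norm_num)
  exact ⟨D, h3 D hD, heD⟩

end

/-- **Theorem.** Let `G` be a finite graph, loops and parallel edges allowed, which is in the class
`Closure` (for some maps `src`, `dst` giving the two ends of the edges).

1. If `q : E → {1, 2}` is an eulerian weight (its edges of weight one form an even subgraph) then
   `(G, 2 q)` has a circuit cover.
2. More generally, for all numbers `a` and `b` and all even subgraphs `F₁, …, F_a`, the weight
   `p(e) = 4 a + 2 b - 2 #{j | e ∈ F_j}` has a circuit cover. -/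
theorem result {V E : Type} [Fintype V] [DecidableEq V] [Fintype E] [DecidableEq E]
    (G : MGraph V E) (src dst : E → V) (hst : ∀ e, G.ends e = s(src e, dst e))
    (h : Closure src dst) :
    (∀ q : E → ℕ, (∀ e, q e = 1 ∨ q e = 2) →
      (∀ v, Even (G.deg (univ.filter fun e => q e = 1) v)) →
      HasCircuitCover G (fun e => 2 * q e)) ∧
    ∀ (a b : ℕ) (F : Fin a → Finset E), (∀ j v, Even (G.deg (F j) v)) →
      HasCircuitCover G (fun e => 4 * a + 2 * b - 2 * (univ.filter fun j => e ∈ F j).card) := by
  have hQ := six_of G hst h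
  have hB := bridgeless_of G hQ
  refine ⟨fun q hq hev => ?_,
    fun a b F hF => TwiceEulerianWeights.cover_switch G hB hQ b a F hF⟩
  obtain ⟨X, hX1, hX2⟩ := TwiceEulerianWeights.cover_switch G hB hQ 0 1
    (fun _ => univ.filter fun e => q e = 1) (fun _ => hev)
  refine ⟨X, hX1, fun e => ?_⟩
  rw [hX2 e]
  rcases hq e with h | h <;> simp [h]

end Pool.Agent.Results.MP_20b97f_co.ClosureOfClasses
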