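import Pool.Agent.H1.TP.Fin9

/-!
# Even multiples of eulerian (1,2)-weightings have circuit covers (MP_20b97f_co)

Graphs are finite, loops and parallel edges allowed (`MGraph V E`, `G.deg`, `G.IsCircuit`,
`G.Bridgeless` are defined in `Pool.Agent.H126R2.CDC.Defs`).  Let `F` be an even subgraph of `G`
(every vertex has even degree in `F`) and let `w` be the weighting which is one on `F` and two on the
other edges.  Let `T(y) = T(G / F; 0, y)` be the value at `(0, y)` of the Tutte polynomial of the
contraction; `T(1 - k)` is up to sign the number of nowhere-zero flows of `G / F` with values in the
integers modulo `k`.  If `p` is a prime number, `p - 1` divides `c` and `p ^ 2` does not divide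
`T(1 - 2 p)` then `c w` has a circuit cover.  So `w` has a circuit cover if the number of nowhere-zero
`4`-flows of `G / F` is not divisible by `4` (`p = 2`), and `2 w` has one unless moreover `9` divides
the number of nowhere-zero `6`-flows.

If `G` has no cut edge, `m = |E - F|` and `r` is the rank of `G / F` then `T(1)` is a positive
integer, at most `m.choose r`.  If `T(1) ≤ 2 ^ L` then `c w` has a circuit cover for some positive even
number `c ≤ 2 L + 2`; the weighting with the value `x` on `F` and `y` off `F` has one for all `x` and
all even numbers `y ≤ 2 x - 4 L - 42`; and for all even numbers `x ≥ (L + 2) ^ A` and `y ≤ 2 x`, with an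
absolute constant `A` (in particular `c w` has a circuit cover for all even numbers
`c ≥ (L + 2) ^ A`).

For the Petersen graph and its `2`-factors `T(1) = 4`, and `w` has no circuit cover.  As
`T(1 - 2 p) = T(1)` modulo `2 p`, the condition holds for all primes which do not divide `T(1)`;
`T(1)` is odd if and only if `G / F` is eulerian.

Proof.  Put `c = p - 1` parallel strands on the edges of `F` and `2 c` strands on the other edges.
The sum over all permutations of the strands on all edges, with signs, of
`λ ^ (number of closed strands)` is for natural numbers `λ` a signed number of colourings of the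
strands with `λ` colours such that the strands of each edge have different colours.  If there is no
cover then it is zero for all natural numbers `λ`, hence for `λ = -2`.  At `λ = -2` the three ways to
join four ends of strands sum up to zero.  With the help of this relation the signed sum over the
`(2 c)!` permutations at an edge outside of `F` is modulo `p` a multiple of the pairing in which all
strands turn back.  The terms in which the set `K` of the other edges is treated exactly are divisible by
`p ^ (|K| + number of components of F ∪ K)`; if `K` is a forest in `G / F` then the term is
`(-1) ^ |K|` times the term of the empty set.  So the whole sum is a unit times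
`p ^ (number of components of F)` times `T(1)`, modulo the next power of `p`.  If `K` contains exactly
one circuit of `G / F`, of length `ℓ`, then the term can be computed: the signed sums over the
permutations at the other edges of the circuit are `(2 c)!` times the pairing which contracts the edge,
and the last one is a number of colourings; so the term is `(-1) ^ |K|` times the term of the empty
set times `1 + (-1) ^ ℓ (2 p - 1) C ^ ℓ` with the Catalan number `C`, which is `2 p (1 - ℓ)` modulo
`p ^ 2`.  Hence the whole sum is modulo the next but one power of `p` given by `T(1 - 2 p)`.  For
`p = 2` this follows from the parity of the numbers of closed strands.  The bounds: some prime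
`p ≤ 2 L + 3` does not divide `T(1)`; Linnik's theorem, with a lower bound for the number of the primes
(`Pool.Agent.Y866.LK.page` in the starting library), gives two prime numbers which do not divide `T(1)`,
are at most a power of `L + 2`, and whose predecessors have the greatest common divisor two; and for
`y < 2 x` the weighting is the sum of a multiple of `c w` and of a weighting with almost equal values.
-/

set_option autoImplicit false

namespace Pool.Agent.Results.MP_20b97f_co.PrimeMultiples

open Finset
open Pool.Agent.H126R2.CDC (MGraph)

/-- `(G, w)` has a circuit cover: a multiset of circuits such that every edge `e` lies in exactly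
`w e` of its members. -/
def HasCircuitCover {V E : Type} [Fintype V] [DecidableEq V] [Fintype E] [DecidableEq E]
    (G : MGraph V E) (w : E → ℕ) : Prop :=
  ∃ 𝓕 : Multiset (Finset E), (∀ C ∈ 𝓕, G.IsCircuit C) ∧ ∀ e, 𝓕.countP (fun C => e ∈ C) = w e

/-- The number of components of the spanning subgraph with edge set `S`. -/
noncomputable def components {V E : Type} (G : MGraph V E) (S : Finset E) : ℕ :=
  Nat.card (Quot fun u v : V => ∃ e ∈ S, G.ends e = s(u, v))

/-- The value `T(G / F; 0, y)` of the Tutte polynomial of `G / F`, that is, the sum of
`(-1) ^ (r - r(K)) * (y - 1) ^ (|K| - r(K))` over all sets `K` of edges outside of `F`, where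
`r(K) = components G F - components G (F ∪ K)` is the rank of `K` in `G / F`, and `r` is the rank
`components G F - components G univ` of `G / F`. -/
noncomputable def tutte0 {V E : Type} [Fintype E] [DecidableEq E] (G : MGraph V E)
    (F : Finset E) (y : ℤ) : ℤ :=
  ∑ K ∈ (univ \ F).powerset, (-1 : ℤ) ^ (components G (F ∪ K) - components G univ) *
    (y - 1) ^ (K.card + components G (F ∪ K) - components G F)

/-- There is an absolute constant `A` with the following property. Let `F` be an even subgraph of the
graph `G`, let `w` be one on `F` and two on the other edges, let `T(y) = T(G / F; 0, y)`, let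
`m = |E - F|` and let `r` be the rank of `G / F`. If `p` is a prime number, `p - 1` divides `c` and
`p ^ 2` does not divide `T(1 - 2 p)` then the weighting `c w` has a circuit cover (so `w` has one
unless `4` divides `T(-3)`, and `2 w` has one unless `4` divides `T(-3)` and `9` divides `T(-5)`). If
`G` has no cut edge then `0 < T(1) ≤ m.choose r`; if moreover `T(1) ≤ 2 ^ L` then the weighting `c w`
has a circuit cover for some even number `c` with `0 < c ≤ 2 L + 2`, and the weighting with the values
`x` on `F` and `y` on the other edges has a circuit cover for all `x` and all even
`y ≤ 2 x - 4 L - 42`, and for all even `x ≥ (L + 2) ^ A` and all even `y ≤ 2 x`. -/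
theorem result : ∃ A : ℕ, ∀ (V E : Type) [Fintype V] [DecidableEq V] [Fintype E] [DecidableEq E]
    (G : MGraph V E) (F : Finset E), (∀ v, Even (G.deg F v)) →
    (∀ c p : ℕ, p.Prime → p - 1 ∣ c → ¬ (p : ℤ) ^ 2 ∣ tutte0 G F (1 - 2 * p) →
      HasCircuitCover G (fun e => if e ∈ F then c else 2 * c)) ∧
    (G.Bridgeless → 0 < tutte0 G F 1 ∧
      tutte0 G F 1 ≤ ((univ \ F).card.choose (components G F - components G univ) : ℕ) ∧
      ∀ L : ℕ, tutte0 G F 1 ≤ 2 ^ L →
      (∃ c : ℕ, c ≠ 0 ∧ Even c ∧ c ≤ 2 * L + 2 ∧
        HasCircuitCover G (fun e => if e ∈ F then c else 2 * c)) ∧
      (∀ x y : ℕ, Even y → y + 4 * L + 42 ≤ 2 * x →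
        HasCircuitCover G (fun e => if e ∈ F then x else y)) ∧
      ∀ x y : ℕ, Even x → Even y → y ≤ 2 * x → (L + 2) ^ A ≤ x →
        HasCircuitCover G (fun e => if e ∈ F then x else y)) :=
  Pool.Agent.H1.TP.final9

end Pool.Agent.Results.MP_20b97f_co.PrimeMultiples
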