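import Pool.Agent.H1.AE.Add

/-!
# Near-constant weightings, and weightings enlarged by a constant (MP_20b97f_co)

Graphs are finite, loops and parallel edges allowed (`MGraph V E`, `G.IsCircuit`, `G.Bridgeless` are
defined in `Pool.Agent.H126R2.CDC.Defs`).  The weightings have any parity.

(1) Intervals of ratio `4 / 3` are good ranges: seven colours (courteous colourings) in place of eight
or nine in the rounds of double covers minus a colour class.

(2) If `p` lies in the cone and in the lattice of the circuits of a bridgeless graph with `N` edges
then `p + s` has a circuit cover for every even `s ≥ 14 √(min (max p, N) log (2 N)) + 39`: up to an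
additive constant which depends on the number of the edges only, all weightings are covered.  Proof: a
real combination of at most `N` circuits is rounded with small errors on all edges (exponential
potential), and the remainder is a near-constant weighting, to which (1) applies.
-/

set_option autoImplicit false

namespace Pool.Agent.Results.MP_20b97f_co.RatioFourThirds

open Pool.Agent.H126R2.CDC (MGraph)

/-- `(G, p)` has a circuit cover: a multiset of circuits such that every edge `e` lies in exactly
`p e` of its members. -/
def HasCircuitCover {V E : Type} [Fintype V] [DecidableEq V] [Fintype E] [DecidableEq E]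
    (G : MGraph V E) (p : E → ℕ) : Prop :=
  ∃ F : Multiset (Finset E), (∀ C ∈ F, G.IsCircuit C) ∧ ∀ e, F.countP (fun C => e ∈ C) = p e

/-- `p` is a nonnegative real combination of (the incidence vectors of) circuits. -/
def InCone {V E : Type} [Fintype V] [DecidableEq V] [Fintype E] [DecidableEq E]
    (G : MGraph V E) (p : E → ℕ) : Prop :=
  ∃ w : Finset E → ℝ, (∀ C, 0 ≤ w C) ∧ (∀ C, ¬ G.IsCircuit C → w C = 0) ∧
    ∀ e, (p e : ℝ) = ∑ C : Finset E, w C * (if e ∈ C then 1 else 0)

/-- `p` is an integer combination of (the incidence vectors of) circuits. -/
def InLattice {V E : Type} [Fintype V] [DecidableEq V] [Fintype E] [DecidableEq E]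
    (G : MGraph V E) (p : E → ℕ) : Prop :=
  (fun e => (p e : ℤ)) ∈ AddSubgroup.closure
    {x : E → ℤ | ∃ C, G.IsCircuit C ∧ x = fun e => if e ∈ C then 1 else 0}

/-- (1) Let `p` be a weighting of the edges of a finite graph by natural numbers, even or not, with
`3 p(e) + 39 ≤ 4 p(f)` for any two edges `e`, `f`. Then `(G, p)` has a circuit cover if and only if
`p` lies in the cone and in the lattice generated by the circuits. In particular for every `k` the set
of all integers `n` with `k ≤ n` and `3 n + 39 ≤ 4 k` is a good range.

(2) Let `p` be a weighting of the edges of a bridgeless graph with `N` edges, even or not, in the cone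
and in the lattice generated by the circuits, and let `K` be at least the maximum of `p` or at least
`N`. Then `(G, p + s)` has a circuit cover for every even `s ≥ 14 √(K log (2 N)) + 39`. -/
theorem result (V E : Type) [Fintype V] [DecidableEq V] [Fintype E] [DecidableEq E]
    (G : MGraph V E) :
    (∀ p : E → ℕ, (∀ e f, 3 * p e + 39 ≤ 4 * p f) →
      (HasCircuitCover G p ↔ InCone G p ∧ InLattice G p)) ∧
    (G.Bridgeless → ∀ (p : E → ℕ) (s : ℕ) (K : ℝ), InCone G p → InLattice G p → Even s →
      ((∀ e, (p e : ℝ) ≤ K) ∨ (Fintype.card E : ℝ) ≤ K) →
      14 * Real.sqrt (K * Real.log (2 * Fintype.card E)) + 39 ≤ s →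
      HasCircuitCover G (fun e => p e + s)) :=
  ⟨fun p hr => Pool.Agent.H1.SC.ratio_four_thirds G p hr,
    fun hG p s K hc hl hs hK h => Pool.Agent.H1.AE.add_const G hG p s K hc hl hs hK h⟩

end Pool.Agent.Results.MP_20b97f_co.RatioFourThirds
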